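import Pool.Agent.Helper75.PZ.GoalsA

/-!
# Project PZ (MP_acfd82_an), packet NUM: the inequality for real numbers
-/

namespace Pool.Agent.Helper83.PZ

open Real

/-- The case `R = 1` of the two point inequality. -/
theorem two_one {e q m b : ℝ} (he1 : e < 1 / 2) (hq : 1 ≤ q)
    (h2 : (2 * (1 - e)) ^ q = 2) (hm : 0 ≤ m) (hmb : m ≤ b) (h : (1 - 2 * e) * m + b ≤ 1) :
    m ^ q + b ^ q ≤ 1 := by
  set M := 2 * (1 - e) with hM
  have hM0 : 0 < M := by rw [hM]; linarith
  have hl1 : M * m ≤ 1 := by rw [hM]; linarith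
  have hl0 : 0 ≤ M * m := mul_nonneg hM0.le hm
  have hs : (1 / M) ^ q = 1 / 2 := by
    rw [Real.div_rpow zero_le_one hM0.le, Real.one_rpow, h2]
  have hb : b ≤ (1 - M * m) * 1 + (M * m) * (1 / M) := by
    have : (M * m) * (1 / M) = m := by field_simp
    rw [this, hM]
    linarith
  have hb0 : 0 ≤ b := hm.trans hmb
  have hi1 : (1 : ℝ) ∈ Set.Ici (0 : ℝ) := Set.mem_Ici.2 zero_le_one
  have hi2 : (1 / M : ℝ) ∈ Set.Ici (0 : ℝ) := Set.mem_Ici.2 (by positivity)
  have hconv := (convexOn_rpow hq).2 hi1 hi2 (by linarith : 0 ≤ 1 - M * m) hl0 (by ring)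
  simp only [smul_eq_mul] at hconv
  rw [Real.one_rpow, hs] at hconv
  have hbq : b ^ q ≤ (1 - M * m) * 1 + M * m * (1 / 2) :=
    (Real.rpow_le_rpow hb0 hb (by linarith)).trans hconv
  have hmq : m ^ q ≤ M * m * (1 / 2) := by
    have h1 : m = (M * m) * (1 / M) := by field_simp
    have h3 : m ^ q = (M * m) ^ q * (1 / 2) := by
      conv_lhs => rw [h1]
      rw [Real.mul_rpow hl0 (by positivity), hs]
    rw [h3]
    refine mul_le_mul_of_nonneg_right ?_ (by norm_num)
    calc (M * m) ^ q ≤ (M * m) ^ (1 : ℝ) := by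
          rcases hl0.eq_or_lt with h0 | h0
          · rw [← h0, Real.zero_rpow (by linarith), Real.rpow_one]
          · exact Real.rpow_le_rpow_of_exponent_ge h0 hl1 hq
      _ = M * m := Real.rpow_one _
  linarith

theorem two {e q m b R : ℝ} (he1 : e < 1 / 2) (hq : 1 ≤ q)
    (h2 : (2 * (1 - e)) ^ q = 2) (hm : 0 ≤ m) (hmb : m ≤ b) (h : (1 - 2 * e) * m + b ≤ R) :
    m ^ q + b ^ q ≤ R ^ q := by
  have hb0 : 0 ≤ b := hm.trans hmb
  have hc : 0 < 1 - 2 * e := by linarith
  have hcm : 0 ≤ (1 - 2 * e) * m := mul_nonneg hc.le hm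
  have hR0 : 0 ≤ R := by linarith
  rcases hR0.eq_or_lt with hR | hR
  · have hb : b = 0 := by linarith
    have hm' : m = 0 := by linarith
    rw [← hR, hb, hm', Real.zero_rpow (by linarith)]
    norm_num
  · have h3 := two_one (m := m / R) (b := b / R) he1 hq h2 (by positivity)
      (div_le_div_of_nonneg_right hmb hR.le) (by
        rw [← mul_div_assoc, ← add_div, div_le_one hR]
        exact h)
    rw [Real.div_rpow hm hR.le, Real.div_rpow hb0 hR.le, ← add_div,
      div_le_one (Real.rpow_pos_of_pos hR q)] at h3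
    exact h3

theorem small {q h a c : ℝ} (hq : 1 ≤ q) (hh : h ^ (q - 1) ≤ c) (ha : 0 ≤ a)
    (hah : a ≤ h) : a ^ q ≤ c * a := by
  rcases ha.eq_or_lt with h0 | h0
  · rw [← h0, Real.zero_rpow (by linarith), mul_zero]
  · have h1 : a ^ q = a ^ (q - 1) * a := by
      conv_lhs => rw [← sub_add_cancel q 1]
      rw [Real.rpow_add h0, Real.rpow_one]
    rw [h1]
    exact mul_le_mul_of_nonneg_right ((Real.rpow_le_rpow ha hah (by linarith)).trans hh) ha

theorem num : Pool.Agent.Helper75.PZ.P_NUM := by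
  intro e q h a0 a3 m b he he1 hq h2 hh0 hh1 hh ha0 ha0h ha3 ha3h hm hmb hsum
  have hb0 : 0 ≤ b := hm.trans hmb
  set c := 1 - 2 * e with hc
  have hc0 : 0 < c := by rw [hc]; linarith
  have hc1 : c ≤ 1 := by rw [hc]; linarith
  have m0 : max (a0 ^ q) (c * a0) = c * a0 := max_eq_right (small hq hh ha0 ha0h)
  have m3 : max (a3 ^ q) (c * a3) = c * a3 := max_eq_right (small hq hh ha3 ha3h)
  rw [m0, m3]
  have p0 := mul_nonneg hc0.le ha0
  have p3 := mul_nonneg hc0.le ha3
  have pm := mul_nonneg hc0.le hm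
  have hb1 : b ≤ 1 := by
    have : c * (a0 + a3 + m) = c * a0 + c * a3 + c * m := by ring
    linarith
  by_cases hcase : m ^ q ≤ c * m
  · rw [max_eq_right hcase]
    have h3 : max (b ^ q) (c * b) ≤ b := by
      refine max_le ?_ ?_
      · rcases hb0.eq_or_lt with h0 | h0
        · rw [← h0, Real.zero_rpow (by linarith)]
        · calc b ^ q ≤ b ^ (1 : ℝ) := Real.rpow_le_rpow_of_exponent_ge h0 hb1 hq
            _ = b := Real.rpow_one b
      · nlinarith
    have : c * (a0 + a3 + m) = c * a0 + c * a3 + c * m := by ring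
    linarith
  · have hcase' := (not_le.1 hcase).le
    rw [max_eq_left hcase']
    have hmpos : 0 < m := by
      rcases hm.eq_or_lt with h0 | h0
      · exfalso
        apply hcase
        rw [← h0, Real.zero_rpow (by linarith), mul_zero]
      · exact h0
    have hbpos : 0 < b := hmpos.trans_le hmb
    have hsplit : ∀ x : ℝ, 0 < x → x ^ q = x ^ (q - 1) * x := by
      intro x hx
      conv_lhs => rw [← sub_add_cancel q 1]
      rw [Real.rpow_add hx, Real.rpow_one]
    have hmq : c ≤ m ^ (q - 1) := by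
      rw [hsplit m hmpos] at hcase'
      exact le_of_mul_le_mul_right hcase' hmpos
    have hbq : c * b ≤ b ^ q := by
      rw [hsplit b hbpos]
      exact mul_le_mul_of_nonneg_right
        (hmq.trans (Real.rpow_le_rpow hm hmb (by linarith))) hb0
    rw [max_eq_left hbq]
    have h4 := two (R := 1 - c * (a0 + a3)) he1 hq h2 hm hmb (by
      rw [← hc]
      linarith)
    have hR1 : 1 - c * (a0 + a3) ≤ 1 := by
      have : 0 ≤ c * (a0 + a3) := by positivity
      linarith
    have hR0 : 0 < 1 - c * (a0 + a3) := by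
      have : c * (a0 + a3 + m) = c * (a0 + a3) + c * m := by ring
      have : 0 < c * m := mul_pos hc0 hmpos
      linarith
    have h5 : (1 - c * (a0 + a3)) ^ q ≤ 1 - c * (a0 + a3) := by
      calc (1 - c * (a0 + a3)) ^ q ≤ (1 - c * (a0 + a3)) ^ (1 : ℝ) :=
            Real.rpow_le_rpow_of_exponent_ge hR0 hR1 hq
        _ = 1 - c * (a0 + a3) := Real.rpow_one _
    linarith

end Pool.Agent.Helper83.PZ
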